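import Pool.Agent.W2helper22.ET.Low

set_option autoImplicit false

/-! # The lower bound for Exact Triangle restricted to a pattern: assembly -/

namespace Pool.Agent.W2helper22.ET

open Pool.Agent.W2helper22.SM Finset

/-- The random words of the copies. -/
noncomputable def coins (W k : ℕ) {n W' : ℕ} (ω' : Tape W' (bits n)) (idx : ℕ) : ℕ → ℕ → ℕ :=
  if idx = nL k n then fun i j => ω'.word (2 * i) (j * (nL k n + 1) + nL k n)
  else (coin3 W k ω' idx).word

/-- One run of the reduction. -/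
theorem run_red (hred : P_RED) {P g : Algo} {p q n k : ℕ} {T Tg T' : ℝ} (hk : k = kk p q n)
    (G : SimpleGraph (Fin n)) (hW : BigW3 P g p q n ((red P g p q).W n))
    (hP : ∀ Y : Instance n, Y.E ≤ G → Decides P Y T) (hg : Computes g G Tg)
    (hT : ((2000 * (nL k n + 1) * (n + 1) ^ 2 +
      10 * (nL k n * ⌊T⌋₊ + ⌊Tg⌋₊) : ℕ) : ℝ) ≤ T') (X : Instance n)
    (ω' : Tape ((red P g p q).W n) (bits n)) :
    ∃ m' t', Runs ((red P g p q).W n) ω'.word (red P g p q).prog X.enc m' t' ∧ (t' : ℝ) ≤ T' ∧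
      ((∀ h < nG k n, ¬ cK n ≤ 2 * Nat.card {j : Fin (cK n) // ¬ RightRun P
        (pull X G (lab k n ω'.word h)) (coin3 (P.W n) k ω' (h * cK n + j))}) →
      (m'.v 1 ≠ 0 ↔ ∃ h < nG k n, (pull X G (lab k n ω'.word h)).Yes)) := by
  classical
  have hle : ∀ h, (pull X G (lab k n ω'.word h)).E ≤ G := fun h x y hxy => hxy.1
  -- runs of the copies
  have hrun : ∀ h < nG k n, ∀ j < cK n, ∃ m t, Runs (P.W n)
      (coin3 (P.W n) k ω' (h * cK n + j)).word P.prog (pull X G (lab k n ω'.word h)).enc m t ∧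
      t ≤ ⌊T⌋₊ := by
    intro h _ j _
    obtain ⟨m, t, hr, ht⟩ := (hP _ (hle h)).1 (coin3 (P.W n) k ω' (h * cK n + j))
    exact ⟨m, t, hr, Nat.le_floor ht⟩
  choose! mf tf hR hTm using hrun
  obtain ⟨mg, tg, hrg, htg, hout⟩ := hg
    (fun i j => ω'.word (2 * i) (j * (nL k n + 1) + nL k n)) (fun i j => word_lt _ _ _)
  have hK := cK_pos n
  have hdiv : ∀ h j, j < cK n → (h * cK n + j) / cK n = h := fun h j hj => mul_add_div' hj
  have hmod : ∀ h j, j < cK n → (h * cK n + j) % cK n = j := fun h j hj => mul_add_mod' hj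
  let μ : ℕ → Mem := fun idx => if idx = nL k n then mg else mf (idx / cK n) (idx % cK n)
  let τ : ℕ → ℕ := fun idx => if idx = nL k n then tg else tf (idx / cK n) (idx % cK n)
  have hμ : ∀ h < nG k n, ∀ j < cK n, μ (h * cK n + j) = mf h j := by
    intro h hh j hj
    have := idx_lt hh hj
    simp only [μ]
    rw [if_neg (by omega), hdiv h j hj, hmod h j hj]
  have hτ : ∀ h < nG k n, ∀ j < cK n, τ (h * cK n + j) = tf h j := by
    intro h hh j hj
    have := idx_lt hh hj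
    simp only [τ]
    rw [if_neg (by omega), hdiv h j hj, hmod h j hj]
  have hco : ∀ idx < nL k n, coins (P.W n) k ω' idx = (coin3 (P.W n) k ω' idx).word := by
    intro idx hidx
    unfold coins
    rw [if_neg (by omega)]
  have hcg : coins (P.W n) k ω' (nL k n) =
      fun i j => ω'.word (2 * i) (j * (nL k n + 1) + nL k n) := by
    unfold coins
    rw [if_pos rfl]
  obtain ⟨m', t', hr, ht, hq⟩ := hred P g p q n k ((red P g p q).W n) ω'.word
    (coins (P.W n) k ω') X G μ τ hk hW (fun i j => word_lt _ _ _)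
    (fun idx hidx i hi j hj => by rw [hco idx hidx]; exact coin3_word _ _ _ _ _ _ hi hj)
    (fun i _ j _ => by rw [hcg])
    (by
      rw [hcg]
      simp only [μ, τ, if_true]
      exact hrg)
    (fun i j => by
      simp only [μ, if_true]
      exact hout i j)
    (fun h hh j hj => by
      rw [hco _ (idx_lt hh hj), hμ h hh j hj, hτ h hh j hj]
      exact hR h hh j hj)
  refine ⟨m', t', hr, le_trans ?_ hT, ?_⟩
  · have hsum : ∑ idx ∈ range (nL k n + 1), τ idx ≤ nL k n * ⌊T⌋₊ + ⌊Tg⌋₊ := by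
      rw [sum_range_succ]
      have h1 : τ (nL k n) ≤ ⌊Tg⌋₊ := by
        simp only [τ, if_true]
        exact Nat.le_floor htg
      have h2 : ∑ idx ∈ range (nL k n), τ idx ≤ ∑ idx ∈ range (nL k n), ⌊T⌋₊ := by
        refine sum_le_sum ?_
        intro idx hidx
        have hidx' : idx < nL k n := by simpa using hidx
        simp only [τ]
        rw [if_neg (by omega)]
        have hh : idx / cK n < nG k n := by
          rw [Nat.div_lt_iff_lt_mul hK]
          exact hidx'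
        exact hTm _ hh _ (Nat.mod_lt _ hK)
      rw [sum_const, card_range, smul_eq_mul] at h2
      omega
    have : t' ≤ 2000 * (nL k n + 1) * (n + 1) ^ 2 + 10 * (nL k n * ⌊T⌋₊ + ⌊Tg⌋₊) := by
      have h3 := Nat.mul_le_mul_left 10 hsum
      omega
    exact_mod_cast this
  · intro hgood
    rw [hq]
    refine exists_congr (fun h => and_congr_right (fun hh => ?_))
    have hcnt : ((Finset.range (cK n)).filter
        (fun j => (μ (h * cK n + j)).v 1 ≠ 0)).card =
        Nat.card {j : Fin (cK n) // (mf h j).v 1 ≠ 0} := by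
      rw [Nat.card_eq_fintype_card, Fintype.card_subtype]
      refine Finset.card_bij' (fun j hj => ⟨j, by simpa using (Finset.mem_filter.1 hj).1⟩)
        (fun j _ => (j : ℕ)) ?_ ?_ ?_ ?_
      · intro j hj
        rw [Finset.mem_filter] at hj
        have hjK : j < cK n := by simpa using hj.1
        refine Finset.mem_filter.2 ⟨Finset.mem_univ _, ?_⟩
        have h8 := hj.2
        rw [hμ h hh j hjK] at h8
        exact h8
      · intro j hj
        rw [Finset.mem_filter] at hj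
        rw [Finset.mem_filter]
        refine ⟨by simp, ?_⟩
        rw [hμ h hh j j.2]
        exact hj.2
      · intro j hj; rfl
      · intro j hj; rfl
    rw [hcnt]
    refine majority (fun j : Fin (cK n) => RightRun P
      (pull X G (lab k n ω'.word h)) (coin3 (P.W n) k ω' (h * cK n + j))) _ _ ?_ (hgood h hh)
    intro j hright
    obtain ⟨m1, t1, hr1, h1⟩ := hright
    have := (hR h hh j j.2).det hr1
    rw [this.1]
    exact h1

/-- The reduction decides Exact Triangle. -/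
theorem red_decides (hred : P_RED) (hchern : P_CHERN) (hmom : P_MOM) (hcls : P_CLS)
    {P g : Algo} {p q n k : ℕ} {T Tg T' : ℝ} (hk : k = kk p q n)
    (G : SimpleGraph (Fin n)) (hn : 2 ≤ n) (hW : BigW3 P g p q n ((red P g p q).W n))
    (hP : ∀ Y : Instance n, Y.E ≤ G → Decides P Y T) (hg : Computes g G Tg)
    (ht1 : 2 ^ (k + 50) * bits n ^ 30 ≤ tri G) (ht2 : 2 ^ 50 * bits n ^ 30 * n ^ 2 ≤ tri G)
    (hun : (nG k n : ℝ) * (24 / 25 : ℝ) ^ cK n ≤ 1 / 12)
    (hT : ((2000 * (nL k n + 1) * (n + 1) ^ 2 +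
      10 * (nL k n * ⌊T⌋₊ + ⌊Tg⌋₊) : ℕ) : ℝ) ≤ T') (X : Instance n) :
    Decides (red P g p q) X T' := by
  classical
  have hrun := fun ω' => run_red hred hk G hW hP hg hT X ω'
  refine ⟨fun ω' => ?_, ?_⟩
  · obtain ⟨m', t', h1, h2, _⟩ := hrun ω'
    exact ⟨m', t', h1, h2⟩
  · have hne : Nonempty (Tape ((red P g p q).W n) (bits n)) := ⟨fun _ _ => ⟨0, by positivity⟩⟩
    let Bad : Tape ((red P g p q).W n) (bits n) → Prop := fun ω' =>
      ∃ h ∈ range (nG k n), cK n ≤ 2 * Nat.card {j : Fin (cK n) // ¬ RightRun P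
        (pull X G (lab k n ω'.word h)) (coin3 (P.W n) k ω' (h * cK n + j))}
    have hbad : prob Bad ≤ 1 / 12 := by
      refine le_trans (prob_exists _ _) ?_
      refine le_trans (Finset.sum_le_sum (g := fun _ => (24 / 25 : ℝ) ^ cK n) ?_) ?_
      · intro h hh
        exact prob_group hchern hk hW X G T hP h (by simpa using hh)
      · rw [sum_const, card_range, nsmul_eq_mul]
        exact hun
    by_cases hX : X.Yes
    · obtain ⟨i, j, l, hij, hjl, hil, hw⟩ := id hX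
      obtain ⟨S, t1, t2, t3, hsum, hsp, hadj⟩ := hcls n k G hn ht1 ht2
      have hhit := hmom n S t1 t2 t3 hn hsp ((i : ℕ) % 2 ^ t1) (Nat.mod_lt _ (by positivity))
        ((j : ℕ) % 2 ^ t2) (Nat.mod_lt _ (by positivity)) ((l : ℕ) % 2 ^ t3)
        (Nat.mod_lt _ (by positivity))
      obtain ⟨hb1, hb2, hb3, _⟩ := id hsp
      have hI1 : (i : ℕ) / 2 ^ t1 < n / 2 ^ t1 + 1 :=
        Nat.lt_succ_of_le (Nat.div_le_div_right i.2.le)
      have hI2 : (j : ℕ) / 2 ^ t2 < n / 2 ^ t2 + 1 :=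
        Nat.lt_succ_of_le (Nat.div_le_div_right j.2.le)
      have hI3 : (l : ℕ) / 2 ^ t3 < n / 2 ^ t3 + 1 :=
        Nat.lt_succ_of_le (Nat.div_le_div_right l.2.le)
      have hu := index_lt hb1 hb2 hb3 (by omega) hsum hI1 hI2 hI3
      let u := ((i : ℕ) / 2 ^ t1 * (n / 2 ^ t2 + 1) + (j : ℕ) / 2 ^ t2) * (n / 2 ^ t3 + 1) +
        (l : ℕ) / 2 ^ t3
      let h0 := (t1 * bits n + t2) * nU k n + u
      have hlt : ∀ pl < 4, h0 * 4 + pl < nG k n := fun pl hpl => group_lt hb1 hb2 hu hpl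
      have hmiss := prob_miss hk hW S t1 t2 t3 _ _ _ h0 (hlt 3 (by norm_num)) hhit
      have h1 : (2 : ℝ) / 3 ≤ prob (fun ω' => ¬ (Bad ω' ∨
          ∀ pl : Fin 4, ¬ Hit S t1 t2 t3 ((i : ℕ) % 2 ^ t1) ((j : ℕ) % 2 ^ t2)
            ((l : ℕ) % 2 ^ t3) (wrd ω' (h0 * 4 + pl)))) := by
        rw [prob_not]
        have := prob_or Bad (fun ω' => ∀ pl : Fin 4, ¬ Hit S t1 t2 t3 ((i : ℕ) % 2 ^ t1)
          ((j : ℕ) % 2 ^ t2) ((l : ℕ) % 2 ^ t3) (wrd ω' (h0 * 4 + pl)))
        linarith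
      refine h1.trans (prob_mono ?_)
      intro ω' hgood
      rw [not_or] at hgood
      obtain ⟨hg1, hg2⟩ := hgood
      obtain ⟨m', t', hr, _, hiff⟩ := hrun ω'
      refine ⟨m', t', hr, ?_⟩
      rw [hiff (fun h hh hle => hg1 ⟨h, by simpa using hh, hle⟩)]
      refine iff_of_true ?_ hX
      push Not at hg2
      obtain ⟨pl, s, hs, r1, r2, r3, e1, e2, e3⟩ := hg2
      refine ⟨h0 * 4 + pl, hlt pl pl.2, ?_⟩
      obtain ⟨d1, d2, d3, d4, d5, d6⟩ := decode hb2 hsum hI2 hI3 hu pl.2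
        (h := h0 * 4 + pl) rfl
      obtain ⟨a1, a2, a3⟩ := hadj s hs
      refine pull_hit X G _ hij hjl hil hw a1 a2 a3 ?_ ?_ ?_
      · rw [lab_eq]
        unfold labF
        rw [dif_pos s.1.2]
        rw [if_pos r1, d1, d4]
        have e1' : ((wrd ω' (h0 * 4 + pl) ⟨(s.1 : ℕ), s.1.2⟩).2 : ℕ) % 2 ^ t1 =
            (i : ℕ) % 2 ^ t1 := e1
        rw [e1', Nat.div_add_mod']
      · rw [lab_eq]
        unfold labF
        rw [dif_pos s.2.1.2]
        have r2' : ((wrd ω' (h0 * 4 + pl) ⟨(s.2.1 : ℕ), s.2.1.2⟩).1 : ℕ) % 4 = 1 := r2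
        rw [if_neg (by omega), if_pos r2', d2, d5]
        have e2' : ((wrd ω' (h0 * 4 + pl) ⟨(s.2.1 : ℕ), s.2.1.2⟩).2 : ℕ) % 2 ^ t2 =
            (j : ℕ) % 2 ^ t2 := e2
        rw [e2', Nat.div_add_mod']
      · rw [lab_eq]
        unfold labF
        rw [dif_pos s.2.2.2]
        have r3' : ((wrd ω' (h0 * 4 + pl) ⟨(s.2.2 : ℕ), s.2.2.2⟩).1 : ℕ) % 4 = 2 := r3
        rw [if_neg (by omega), if_neg (by omega), if_pos r3', d3, d6]
        have e3' : ((wrd ω' (h0 * 4 + pl) ⟨(s.2.2 : ℕ), s.2.2.2⟩).2 : ℕ) % 2 ^ t3 =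
            (l : ℕ) % 2 ^ t3 := e3
        rw [e3', Nat.div_add_mod']
    · have h1 : (2 : ℝ) / 3 ≤ prob (fun ω' => ¬ Bad ω') := by
        rw [prob_not]
        linarith
      refine h1.trans (prob_mono ?_)
      intro ω' hgood
      obtain ⟨m', t', hr, _, hiff⟩ := hrun ω'
      refine ⟨m', t', hr, ?_⟩
      rw [hiff (fun h hh hle => hgood ⟨h, by simpa using hh, hle⟩)]
      refine iff_of_false ?_ hX
      rintro ⟨h, _, hy⟩
      exact hX (pull_sound X G _ hy)

theorem tri_le {n : ℕ} (G : SimpleGraph (Fin n)) : tri G ≤ n ^ 3 := by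
  classical
  unfold tri
  have := Finite.card_subtype_le (α := Fin n × Fin n × Fin n)
    (fun p => G.Adj p.1 p.2.1 ∧ G.Adj p.2.1 p.2.2 ∧ G.Adj p.1 p.2.2)
  refine this.trans (le_of_eq ?_)
  rw [Nat.card_prod, Nat.card_prod, Nat.card_eq_fintype_card, Fintype.card_fin]
  ring

/-- The lower bound. -/
theorem lower_ok (hred : P_RED) (hchern : P_CHERN) (hmom : P_MOM) (hcls : P_CLS) (hasy : P_ASY)
    (G : (n : ℕ) → SimpleGraph (Fin n)) (θ : ℝ) (hθ : 2 < θ)
    (hG : ∀ ε : ℝ, 0 < ε → ∀ᶠ n : ℕ in Filter.atTop, (n : ℝ) ^ (θ - ε) ≤ tri (G n))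
    (hg : ∃ (g : Algo) (σ : ℝ), σ < 3 ∧
      ∀ᶠ n : ℕ in Filter.atTop, Computes g (G n) ((n : ℝ) ^ σ))
    (τ : ℝ) (hτ : τ < θ) (h : PatFast G τ) : ETFast := by
  obtain ⟨P, hP⟩ := h
  obtain ⟨g, σ, hσ, hgc⟩ := hg
  obtain ⟨p, q, τ', hτ', hev⟩ := hasy P g θ τ σ (fun n => tri (G n)) hθ hτ hσ hG
    (Filter.Eventually.of_forall (fun n => by exact_mod_cast tri_le (G n)))
  refine ⟨red P g p q, τ', hτ', ?_⟩
  filter_upwards [hP, hgc, hev, Filter.eventually_ge_atTop 2] with n h1 h2 h3 hn X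
  obtain ⟨a1, a2, a3, a4, a5⟩ := h3
  exact red_decides hred hchern hmom hcls rfl (G n) hn a1 h1 h2 a2 a3 a4 a5 X

end Pool.Agent.W2helper22.ET
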