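import Pool.Agent.W2helper22.SM.Model

set_option autoImplicit false

/-!
# Exact Triangle on the word RAM; the problem restricted to a pattern

The machine is the one of `Pool.Agent.W2helper22.SM.Model` (`Prog`, `Runs`, `Tape`, `prob`).
-/

namespace Pool.Agent.W2helper22.ET

open Pool.Agent.W2helper22.SM

/-- An instance of Exact Triangle with `n` vertices: a graph and symmetric integer weights (for all
pairs of vertices, edges or not) of absolute value at most `n ^ 300`. -/
structure Instance (n : ℕ) where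
  /-- the graph -/
  E : SimpleGraph (Fin n)
  /-- the weights -/
  w : Fin n → Fin n → ℤ
  wsymm : ∀ i j, w i j = w j i
  bound : ∀ i j, |w i j| ≤ (n : ℤ) ^ 300

/-- There is a triangle of weight zero. -/
def Instance.Yes {n : ℕ} (X : Instance n) : Prop :=
  ∃ i j k, X.E.Adj i j ∧ X.E.Adj j k ∧ X.E.Adj i k ∧ X.w i j + X.w j k + X.w i k = 0

open Classical in
/-- The input: the register `0` contains `n`, the array `0` the edge flags, the array `1` the
weights plus `n ^ 300`; everything else is zero. -/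
noncomputable def Instance.enc {n : ℕ} (X : Instance n) : Mem :=
  ⟨fun x => if x = 0 then n else 0,
    fun r i j => if h : i < n ∧ j < n then
      (if r = 0 then (if X.E.Adj ⟨i, h.1⟩ ⟨j, h.2⟩ then 1 else 0)
        else if r = 1 then (X.w ⟨i, h.1⟩ ⟨j, h.2⟩ + (n : ℤ) ^ 300).toNat else 0) else 0⟩

/-- An algorithm: a program, and words with `wd` times as many bits as `n`. -/
structure Algo where
  prog : Prog
  wd : ℕ

/-- The words are the numbers less than `A.W n`. -/
def Algo.W (A : Algo) (n : ℕ) : ℕ := 2 ^ (A.wd * bits n)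

/-- The algorithm halts on the instance `X` within time `T` for all outcomes of the random words,
and its answer (yes if the register `1` is not zero at the end) is right with probability at least
`2 / 3`. -/
def Decides (A : Algo) {n : ℕ} (X : Instance n) (T : ℝ) : Prop :=
  (∀ ω : Tape (A.W n) (bits n), ∃ m t, Runs (A.W n) ω.word A.prog X.enc m t ∧ (t : ℝ) ≤ T) ∧
  2 / 3 ≤ prob fun ω : Tape (A.W n) (bits n) =>
    ∃ m t, Runs (A.W n) ω.word A.prog X.enc m t ∧ (m.v 1 ≠ 0 ↔ X.Yes)

/-- The Exact Triangle hypothesis fails: some algorithm decides Exact Triangle with bounded error in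
time `n ^ τ`, `τ < 3`. -/
def ETFast : Prop :=
  ∃ A : Algo, ∃ τ : ℝ, τ < 3 ∧ ∀ᶠ n : ℕ in Filter.atTop, ∀ X : Instance n,
    Decides A X ((n : ℝ) ^ τ)

/-- Exact Triangle restricted to the patterns `G n` (all edges of the instances with `n` vertices
are edges of `G n`; the weights are arbitrary) can be solved in time `n ^ τ`. -/
def PatFast (G : (n : ℕ) → SimpleGraph (Fin n)) (τ : ℝ) : Prop :=
  ∃ A : Algo, ∀ᶠ n : ℕ in Filter.atTop, ∀ X : Instance n, X.E ≤ G n →
    Decides A X ((n : ℝ) ^ τ)

/-- The number of the ordered triangles of a graph. -/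
noncomputable def tri {n : ℕ} (G : SimpleGraph (Fin n)) : ℕ :=
  Nat.card {p : Fin n × Fin n × Fin n // G.Adj p.1 p.2.1 ∧ G.Adj p.2.1 p.2.2 ∧ G.Adj p.1 p.2.2}

/-- The memory with `n` in the register `0` and zero everywhere else. -/
def start (n : ℕ) : Mem := ⟨fun x => if x = 0 then n else 0, fun _ _ _ => 0⟩

/-- The program computes the adjacency matrix of the graph (in the array `2`) in time `T`. -/
def Computes (g : Algo) {n : ℕ} (G : SimpleGraph (Fin n)) (T : ℝ) : Prop :=
  ∀ ω : ℕ → ℕ → ℕ, (∀ i j, ω i j < 2 ^ bits n) → ∃ m t, Runs (g.W n) ω g.prog (start n) m t ∧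
    (t : ℝ) ≤ T ∧ ∀ i j : Fin n, m.a 2 i j ≠ 0 ↔ G.Adj i j

/-- The program makes a list which contains the triangles of the graph, in time `T`: the entry
number `k` of the list is in the places `(0, k)`, `(1, k)`, `(2, k)` of the array `2`, the length of
the list is in the register `1`. -/
def Lists (g : Algo) {n : ℕ} (G : SimpleGraph (Fin n)) (T : ℝ) : Prop :=
  ∀ ω : ℕ → ℕ → ℕ, (∀ i j, ω i j < 2 ^ bits n) → ∃ m t, Runs (g.W n) ω g.prog (start n) m t ∧
    (t : ℝ) ≤ T ∧ (m.v 1 : ℝ) ≤ T ∧ ∀ x y z : Fin n, G.Adj x y → G.Adj y z → G.Adj x z →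
      ∃ k < m.v 1, m.a 2 0 k = x ∧ m.a 2 1 k = y ∧ m.a 2 2 k = z

end Pool.Agent.W2helper22.ET
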