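import Pool.Agent.W2helper22.ET.Model
import Pool.Agent.W2helper22.SM.Stm

set_option autoImplicit false

/-!
# Project ETU: Exact Triangle restricted to a pattern. Programs and statements of the pieces.

THEOREM (`MP_62fbe0_lc`, hard). Let `2 < θ` and let `G n` be graphs on `n` vertices with
`n ^ (θ + o(1))` triangles (any family which is computable in time `n ^ σ`, `σ < 3`, with triangles
listed in time `n ^ (θ + o(1))`). Exact Triangle restricted to instances whose edges are edges of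
`G n` can be solved in time `n ^ (θ + o(1))` by listing the triangles of the pattern, and if it can
be solved in time `n ^ (θ - δ)` then the Exact Triangle hypothesis fails. So no structure of the
graph helps beyond the number of its triangles.

Proof of the lower bound. There are powers of two `m₁ m₂ m₃ = 2 ^ k = n ^ (θ - ε)` such that for
random maps of the vertices of the pattern to the three parts of a complete tripartite graph with
`m₁`, `m₂`, `m₃` vertices every given triple of vertices of the latter is the image of a triangle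
of the pattern with probability `≥ 1 / 2` (second moment; dyadic classes of triangles by the degrees
of their vertices and edges; duality of linear programming and the Loomis-Whitney inequality). So
an arbitrary instance is cut into `n ^ 3 / 2 ^ k` triples of blocks of `m₁`, `m₂`, `m₃` vertices,
and each of them is pulled back to the pattern (several times, with new random maps).
-/

namespace Pool.Agent.W2helper22.ET

open Pool.Agent.W2helper22.SM

/-! ## Shapes, blocks, labels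

`k` is the binary logarithm of `m₁ m₂ m₃`. The groups have the numbers `h < nG k n`; the group `h`
encodes the shape `(m₁, m₂, m₃) = (2 ^ s1, 2 ^ s2, 2 ^ s3)`, a triple `(i1, i2, i3)` of blocks, and
the number `h % 4` of the try. In each group there are `cK n` copies of the algorithm with the same
input and different random words. -/

def kk (p q n : ℕ) : ℕ := p * Nat.log 2 n / q
def nU (k n : ℕ) : ℕ := 8 * (n ^ 3 / 2 ^ k + 1)
def nG (k n : ℕ) : ℕ := bits n ^ 2 * nU k n * 4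
def nL (k n : ℕ) : ℕ := nG k n * cK n

def s1 (k n h : ℕ) : ℕ := h / 4 / nU k n / bits n
def s2 (k n h : ℕ) : ℕ := h / 4 / nU k n % bits n
def s3 (k n h : ℕ) : ℕ := k - s1 k n h - s2 k n h
def b2 (k n h : ℕ) : ℕ := n / 2 ^ s2 k n h + 1
def b3 (k n h : ℕ) : ℕ := n / 2 ^ s3 k n h + 1
def i1 (k n h : ℕ) : ℕ := h / 4 % nU k n / b3 k n h / b2 k n h
def i2 (k n h : ℕ) : ℕ := h / 4 % nU k n / b3 k n h % b2 k n h
def i3 (k n h : ℕ) : ℕ := h / 4 % nU k n % b3 k n h

/-- The label of the vertex `x` of the pattern in the group `h`: a vertex of the instance (or `n`,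
which means that `x` is not used). -/
def lab (k n : ℕ) (ω' : ℕ → ℕ → ℕ) (h x : ℕ) : ℕ :=
  if ω' (2 * x + 1) (2 * h) % 4 = 0 then
    i1 k n h * 2 ^ s1 k n h + ω' (2 * x + 1) (2 * h + 1) % 2 ^ s1 k n h
  else if ω' (2 * x + 1) (2 * h) % 4 = 1 then
    i2 k n h * 2 ^ s2 k n h + ω' (2 * x + 1) (2 * h + 1) % 2 ^ s2 k n h
  else if ω' (2 * x + 1) (2 * h) % 4 = 2 then
    i3 k n h * 2 ^ s3 k n h + ω' (2 * x + 1) (2 * h + 1) % 2 ^ s3 k n h
  else n

/-- The instance `X` pulled back to the pattern `G` by the labels. -/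
noncomputable def pull {n : ℕ} (X : Instance n) (G : SimpleGraph (Fin n)) (l : ℕ → ℕ) :
    Instance n where
  E :=
    { Adj := fun x y => G.Adj x y ∧ ∃ (hx : l x < n) (hy : l y < n),
        X.E.Adj ⟨l x, hx⟩ ⟨l y, hy⟩
      symm := ⟨fun _ _ h => ⟨h.1.symm, h.2.2.1, h.2.1, h.2.2.2.symm⟩⟩
      loopless := ⟨fun _ h => G.loopless.irrefl _ h.1⟩ }
  w := fun x y => if h : l x < n ∧ l y < n then X.w ⟨l x, h.1⟩ ⟨l y, h.2⟩ else -(n : ℤ) ^ 300
  wsymm := by
    intro x y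
    by_cases h : l x < n ∧ l y < n
    · have h' : l y < n ∧ l x < n := ⟨h.2, h.1⟩
      rw [dif_pos h, dif_pos h', X.wsymm]
    · have h' : ¬ (l y < n ∧ l x < n) := fun h' => h ⟨h'.2, h'.1⟩
      rw [dif_neg h, dif_neg h']
  bound := by
    intro x y
    by_cases h : l x < n ∧ l y < n
    · rw [dif_pos h]
      exact X.bound _ _
    · rw [dif_neg h, abs_neg, abs_of_nonneg (by positivity)]

/-! ## The reduction

Registers: `0`: `n`; `3`: `log₂ n`; `4`: `k`; `5`: `K = cK n`; `6`: `nU`; `7`: `nG`; `2`: the number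
`L = nL + 1` of copies (the copy `nL` is for the program of the pattern); `1`: the number of the
current copy; `8`: the group; `14`-`22`: shape and block; `23`: number of yes answers; `24`: the
answer. Array `5`: labels. -/

/-- Entry of the pattern (`0` or `1`). -/
def patE : Expr :=
  eSub (.lit 1) (eSub (.lit 1)
    (.get 13 (.reg 12) (eAdd (eMul (.reg 13) (.reg 2)) (eSub (.reg 2) (.lit 1)))))

def roleE : Expr :=
  eMod (.rnd (eAdd (eMul (.lit 2) (.reg 12)) (.lit 1)) (eMul (.lit 2) (.reg 8))) (.lit 4)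

/-- `i * 2 ^ s + (random word mod 2 ^ s)`. -/
def labE (i s : ℕ) : Expr :=
  eAdd (eMul (.reg i) (eShl (.lit 1) (.reg s)))
    (eMod (.rnd (eAdd (eMul (.lit 2) (.reg 12)) (.lit 1))
      (eAdd (eMul (.lit 2) (.reg 8)) (.lit 1))) (eShl (.lit 1) (.reg s)))

def setLab : Prog :=
  .ite (.eq roleE (.lit 0)) (.store 5 (.lit 0) (.reg 12) (labE 20 14))
    (.ite (.eq roleE (.lit 1)) (.store 5 (.lit 0) (.reg 12) (labE 21 15))
      (.ite (.eq roleE (.lit 2)) (.store 5 (.lit 0) (.reg 12) (labE 22 16))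
        (.store 5 (.lit 0) (.reg 12) (.reg 0))))

/-- Build the input of the copy `r_1 = r_8 * K + r_9`, run it, count its answer. -/
def copyP (P : Algo) : Prog :=
  .seq (.assign 1 (eAdd (eMul (.reg 8) (.reg 5)) (.reg 9)))
    (.seq (forR 12 (.reg 0) (forR 13 (.reg 0)
        (.seq (.store 11 (.reg 12) (eAdd (eMul (.reg 13) (.reg 2)) (.reg 1))
            (eMul patE (.get 0 (.get 5 (.lit 0) (.reg 12)) (.get 5 (.lit 0) (.reg 13)))))
          (.store 12 (.reg 12) (eAdd (eMul (.reg 13) (.reg 2)) (.reg 1))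
            (.get 1 (.get 5 (.lit 0) (.reg 12)) (.get 5 (.lit 0) (.reg 13)))))))
      (.seq (.store 10 (.lit 0) (.reg 1) (.reg 0))
        (.seq P.prog.sim
          (.assign 23 (eAdd (.reg 23)
            (eSub (.lit 1) (eSub (.lit 1) (.get 10 (.lit 1) (.reg 1)))))))))

def groupP (P : Algo) : Prog :=
  .seq (.assign 17 (eMod (eDiv (.reg 8) (.lit 4)) (.reg 6)))
  (.seq (.assign 14 (eDiv (eDiv (eDiv (.reg 8) (.lit 4)) (.reg 6)) (eAdd (.reg 3) (.lit 1))))
  (.seq (.assign 15 (eMod (eDiv (eDiv (.reg 8) (.lit 4)) (.reg 6)) (eAdd (.reg 3) (.lit 1))))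
  (.seq (.assign 16 (eSub (eSub (.reg 4) (.reg 14)) (.reg 15)))
  (.seq (.assign 18 (eAdd (eDiv (.reg 0) (eShl (.lit 1) (.reg 16))) (.lit 1)))
  (.seq (.assign 19 (eAdd (eDiv (.reg 0) (eShl (.lit 1) (.reg 15))) (.lit 1)))
  (.seq (.assign 22 (eMod (.reg 17) (.reg 18)))
  (.seq (.assign 21 (eMod (eDiv (.reg 17) (.reg 18)) (.reg 19)))
  (.seq (.assign 20 (eDiv (eDiv (.reg 17) (.reg 18)) (.reg 19)))
  (.seq (forR 12 (.reg 0) setLab)
  (.seq (.assign 23 (.lit 0))
  (.seq (forR 9 (.reg 5) (copyP P))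
    (.ite (.lt (.reg 5) (eMul (.lit 2) (.reg 23))) (.assign 24 (.lit 1)) .skip))))))))))))

def redP (P g : Algo) (p q : ℕ) : Prog :=
  .seq logP
  (.seq (.assign 4 (eDiv (eMul (.lit p) (.reg 3)) (.lit q)))
  (.seq (.assign 5 (eAdd (eMul (.lit 100) (eAdd (.reg 3) (.lit 1))) (.lit 1)))
  (.seq (.assign 6 (eMul (.lit 8) (eAdd (eDiv (eMul (eMul (.reg 0) (.reg 0)) (.reg 0))
    (eShl (.lit 1) (.reg 4))) (.lit 1))))
  (.seq (.assign 7 (eMul (eMul (eMul (eAdd (.reg 3) (.lit 1)) (eAdd (.reg 3) (.lit 1))) (.reg 6))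
    (.lit 4)))
  (.seq (.assign 1 (eMul (.reg 7) (.reg 5)))
  (.seq (.assign 2 (eAdd (.reg 1) (.lit 1)))
  (.seq (.store 10 (.lit 0) (.reg 1) (.reg 0))
  (.seq g.prog.sim
  (.seq (.assign 24 (.lit 0))
  (.seq (forR 8 (.reg 7) (groupP P))
    (.assign 1 (.reg 24))))))))))))

/-- The reduction from Exact Triangle to Exact Triangle restricted to a pattern: `P` solves the
restricted problem, `g` computes the pattern. -/
def red (P g : Algo) (p q : ℕ) : Algo := ⟨redP P g p q, P.wd + g.wd + 1000⟩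

/-- The numbers which occur are words. -/
def BigW3 (P g : Algo) (p q n W' : ℕ) : Prop :=
  1 ≤ n ∧ 0 < q ∧ p ≤ 3 * q ∧ 4 * n ^ 300 ≤ W' ∧
    1000 * (P.W n + g.W n + P.prog.mx + g.prog.mx + p + q + 1000) * (n + 1) ^ 8 *
      (nL (kk p q n) n + 2) ≤ W'

/-- PIECE RED. Uses `Pool.Agent.W2helper86.SM.sim : P_SIM` (with `L = nL + 1` copies) and
`logP_ok : P_LOG`. All arrays of number `≥ 2` are zero in `X.enc`, so the part of the memory of a
copy is new when its turn comes. The values in the registers and arrays of a copy are words of the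
copy (`Runs.entries_lt` for the arrays). -/
def P_RED : Prop :=
  ∀ (P g : Algo) (p q n k W' : ℕ) (ω' : ℕ → ℕ → ℕ) (ω : ℕ → ℕ → ℕ → ℕ) (X : Instance n)
    (G : SimpleGraph (Fin n)) (μ : ℕ → Mem) (t : ℕ → ℕ), k = kk p q n → BigW3 P g p q n W' →
    (∀ i j, ω' i j < 2 ^ bits n) →
    (∀ idx < nL k n, ∀ i < P.W n, ∀ j < P.W n, ω' (2 * i) (j * (nL k n + 1) + idx) = ω idx i j) →
    (∀ i < g.W n, ∀ j < g.W n, ω' (2 * i) (j * (nL k n + 1) + nL k n) = ω (nL k n) i j) →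
    Runs (g.W n) (ω (nL k n)) g.prog (start n) (μ (nL k n)) (t (nL k n)) →
    (∀ i j : Fin n, (μ (nL k n)).a 2 i j ≠ 0 ↔ G.Adj i j) →
    (∀ h < nG k n, ∀ j < cK n, Runs (P.W n) (ω (h * cK n + j)) P.prog
      (pull X G (lab k n ω' h)).enc (μ (h * cK n + j)) (t (h * cK n + j))) →
    Tr W' ω' (redP P g p q) X.enc
      (2000 * (nL k n + 1) * (n + 1) ^ 2 + 10 * ∑ idx ∈ Finset.range (nL k n + 1), t idx)
      (fun m' => (m'.v 1 ≠ 0 ↔ ∃ h < nG k n,
        cK n < 2 * ((Finset.range (cK n)).filter (fun j => (μ (h * cK n + j)).v 1 ≠ 0)).card))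

/-! ## Covering -/

/-- The event: some triangle in `T` has the roles `0, 1, 2` and the given labels. -/
def Hit {n : ℕ} (T : Finset (Fin n × Fin n × Fin n)) (s1 s2 s3 a b c : ℕ)
    (f : Fin n → Fin (2 ^ bits n) × Fin (2 ^ bits n)) : Prop :=
  ∃ p ∈ T, ((f p.1).1 : ℕ) % 4 = 0 ∧ ((f p.2.1).1 : ℕ) % 4 = 1 ∧ ((f p.2.2).1 : ℕ) % 4 = 2 ∧
    ((f p.1).2 : ℕ) % 2 ^ s1 = a ∧ ((f p.2.1).2 : ℕ) % 2 ^ s2 = b ∧ ((f p.2.2).2 : ℕ) % 2 ^ s3 = c

/-- The conditions for the second moment: few triangles at each vertex and at each edge. -/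
def Spread {n : ℕ} (T : Finset (Fin n × Fin n × Fin n)) (s1 s2 s3 : ℕ) : Prop :=
  s1 < bits n ∧ s2 < bits n ∧ s3 < bits n ∧
  (∀ p ∈ T, p.1 ≠ p.2.1 ∧ p.2.1 ≠ p.2.2 ∧ p.1 ≠ p.2.2) ∧
  1024 * 2 ^ (s1 + s2 + s3) ≤ T.card ∧
  (∀ x y, 512 * (T.filter fun p => p.1 = x ∧ p.2.1 = y).card * 2 ^ (s1 + s2) ≤ T.card) ∧
  (∀ x z, 512 * (T.filter fun p => p.1 = x ∧ p.2.2 = z).card * 2 ^ (s1 + s3) ≤ T.card) ∧
  (∀ y z, 512 * (T.filter fun p => p.2.1 = y ∧ p.2.2 = z).card * 2 ^ (s2 + s3) ≤ T.card) ∧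
  (∀ x, 512 * (T.filter fun p => p.1 = x).card * 2 ^ s1 ≤ T.card) ∧
  (∀ y, 512 * (T.filter fun p => p.2.1 = y).card * 2 ^ s2 ≤ T.card) ∧
  (∀ z, 512 * (T.filter fun p => p.2.2 = z).card * 2 ^ s3 ≤ T.card)

/-- PIECE MOM (second moment). With `p_i = 1 / (4 * 2 ^ s_i)` and `Z` the number of the `p ∈ T`
with the given roles and labels, `E Z = |T| p₁ p₂ p₃`, and the pairs `(p, p')` which share exactly
the first two vertices contribute at most `|T| d p₁ p₂ p₃ ^ 2` to `E Z ^ 2`, etc. (pairs which share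
a vertex in different roles contribute `0`); so `Var Z ≤ (E Z) ^ 2 (1/16 + 3/32 + 3/128)`, and
`P (Z = 0) ≤ 1/2` by Chebyshev. -/
def P_MOM : Prop :=
  ∀ (n : ℕ) (T : Finset (Fin n × Fin n × Fin n)) (s1 s2 s3 : ℕ), 2 ≤ n → Spread T s1 s2 s3 →
    ∀ a < 2 ^ s1, ∀ b < 2 ^ s2, ∀ c < 2 ^ s3, 1 / 2 ≤ prob (Hit T s1 s2 s3 a b c)

/-- PIECE CLS (a class of triangles and a shape). Proof. Let `T₀` be the set of all ordered
triangles, `t = |T₀|`. Sort them by the dyadic levels of the six degrees (numbers of triangles in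
`T₀` at the vertices `p.1`, `p.2.1`, `p.2.2`, as first, second, third vertex, and at the three
edges); some class `T` has `8 bits ^ 6 |T| ≥ t`. In it the degree at an edge `(p.1, p.2.1)` is
between `D₁₂` and `2 D₁₂`, and the number `E₁₂` of these edges is at most `t / D₁₂`, and so on.
Needed are natural numbers `s_i` with the sum `k` and `s_i ≤ log A_i`, `s_i + s_j ≤ log A_ij`,
where `A_i = |T| / (1024 D_i)`, `A_ij = |T| / (1024 D_ij)`, `log (|T| / 1024) ≥ k`. By linear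
programming (eliminate one `s_i` after the other) real `s_i ≥ 0` with the sum `κ` exist iff
`κ ≤ log A₁ + log A₂ + log A₃`, `κ ≤ log A₁₂ + log A₃` (and permutations), `κ ≤ log A₁₂ + log A₁₃`
(and permutations), `2 κ ≤ log A₁₂ + log A₁₃ + log A₂₃`, and all logarithms are `≥ 0`; take
`κ = k + 3` and round down. The conditions follow from
`A_ij ≥ E_ij / (2 ^ 13 bits ^ 6)`, `A_i ≥ N_i / (2 ^ 13 bits ^ 6)`, `|T| ≤ N₁ N₂ N₃`,
`|T| ≤ E₁₂ N₃`, `|T| ≤ E₁₂ E₁₃`, `|T| ^ 2 ≤ E₁₂ E₁₃ E₂₃` (Loomis-Whitney); the logarithms are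
`≥ 0` by the last hypothesis. `s_i ≤ log A_i ≤ log n`. -/
def P_CLS : Prop :=
  ∀ (n k : ℕ) (G : SimpleGraph (Fin n)), 2 ≤ n → 2 ^ (k + 50) * bits n ^ 30 ≤ tri G →
    2 ^ 50 * bits n ^ 30 * n ^ 2 ≤ tri G →
    ∃ (T : Finset (Fin n × Fin n × Fin n)) (s1 s2 s3 : ℕ), s1 + s2 + s3 = k ∧ Spread T s1 s2 s3 ∧
      ∀ p ∈ T, G.Adj p.1 p.2.1 ∧ G.Adj p.2.1 p.2.2 ∧ G.Adj p.1 p.2.2

/-! ## Asymptotics and the upper bound -/

/-- PIECE ASY. Choose a rational number `p / q` between `τ` (and `2`) and `θ`; `k = p log₂ n / q`.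
Then `nU ≤ C n ^ (3 - p / q)`, `nL ≤ n ^ (3 - p / q + o(1))`. -/
def P_ASY : Prop :=
  ∀ (P g : Algo) (θ τ σ : ℝ) (t : ℕ → ℕ), 2 < θ → τ < θ → σ < 3 →
    (∀ ε : ℝ, 0 < ε → ∀ᶠ n : ℕ in Filter.atTop, (n : ℝ) ^ (θ - ε) ≤ t n) →
    (∀ᶠ n : ℕ in Filter.atTop, (t n : ℝ) ≤ (n : ℝ) ^ 3) →
    ∃ (p q : ℕ) (τ' : ℝ), τ' < 3 ∧ ∀ᶠ n : ℕ in Filter.atTop,
      BigW3 P g p q n (2 ^ ((P.wd + g.wd + 1000) * bits n)) ∧
      2 ^ (kk p q n + 50) * bits n ^ 30 ≤ t n ∧ 2 ^ 50 * bits n ^ 30 * n ^ 2 ≤ t n ∧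
      (nG (kk p q n) n : ℝ) * (24 / 25 : ℝ) ^ cK n ≤ 1 / 12 ∧
      ((2000 * (nL (kk p q n) n + 1) * (n + 1) ^ 2 +
        10 * (nL (kk p q n) n * ⌊(n : ℝ) ^ τ⌋₊ + ⌊(n : ℝ) ^ σ⌋₊) : ℕ) : ℝ) ≤ (n : ℝ) ^ τ'

/-- PIECE UP. Algorithm: simulate `g` (as the copy `0` of `1` copies, `P_SIM`), compute `n ^ 300` by
a loop, and test the triples of the list: the answer is yes if for some `k < N` the three entries
`x, y, z` satisfy: the flags (array `0`) at `(x, y)`, `(y, z)`, `(x, z)` are `1` and the sum of the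
three entries of the array `1` is `3 n ^ 300`. (Entries outside of the matrix are `0`.) No random
words are used. -/
def P_UP : Prop :=
  ∀ (G : (n : ℕ) → SimpleGraph (Fin n)) (θ : ℝ), 1 < θ →
    (∃ g : Algo, ∀ ε : ℝ, 0 < ε → ∀ᶠ n : ℕ in Filter.atTop, Lists g (G n) ((n : ℝ) ^ (θ + ε))) →
    ∀ τ : ℝ, θ < τ → PatFast G τ

end Pool.Agent.W2helper22.ET
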